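import Pool.Agent.H2.FbC

namespace Pool.Agent.Results.MP_62a15f_an.Gap

open Set Filter Topology MeasureTheory
open scoped ENNReal RealInnerProductSpace

/-- real `L^p` of the line with Lebesgue measure -/
noncomputable abbrev L (p : ℝ≥0∞) := Lp ℝ p (volume : Measure ℝ)

/-- a family of maps `U p t` on `L^p` -/
abbrev Fam := ∀ p : ℝ≥0∞, ℝ → L p → L p

/-- `A` on `L^p` and `A'` on `L^q` agree on common elements -/
def Agree {p q : ℝ≥0∞} (A : L p → L p) (A' : L q → L q) : Prop :=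
  ∀ (f : L p) (g : L q), f =ᵐ[volume] g → A f =ᵐ[volume] A' g

/-- linear map -/
def Lin {p : ℝ≥0∞} (A : L p → L p) : Prop := IsLinearMap ℝ A

/-- positive map -/
def Pos {p : ℝ≥0∞} (A : L p → L p) : Prop := ∀ f : L p, (∀ᵐ x, 0 ≤ f x) → ∀ᵐ x, 0 ≤ A f x

/-- contraction for the essential supremum norm -/
def SupContr {p : ℝ≥0∞} (A : L p → L p) : Prop :=
  ∀ (f : L p) (c : ℝ), 0 < c → (∀ᵐ x, |f x| ≤ c) → ∀ᵐ x, |A f x| ≤ c

/-- semigroup law -/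
def Law {p : ℝ≥0∞} (A : ℝ → L p → L p) : Prop :=
  (∀ f, A 0 f = f) ∧ ∀ s t, 0 ≤ s → 0 ≤ t → ∀ f, A (s + t) f = A s (A t f)

/-- strong continuity on `[0, ∞)` -/
def Cont {p : ℝ≥0∞} (A : ℝ → L p → L p) : Prop :=
  ∀ f s, 0 ≤ s → Tendsto (fun t => ‖A t f - A s f‖) (𝓝[Ici 0] s) (𝓝 0)

/-- norm contraction -/
def Contr {p : ℝ≥0∞} (A : L p → L p) : Prop := ∀ f, ‖A f‖ ≤ ‖f‖

/-- symmetry on `L^2` -/
def Symm (A : L 2 → L 2) : Prop := ∀ f g : L 2, ∫ x, A f x * g x = ∫ x, f x * A g x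

/-- symmetric sub-Markovian semigroup, realised consistently on every `L^p`, `1 ≤ p < ∞` -/
def SubMarkov (U : Fam) : Prop :=
  (∀ p q : ℝ≥0∞, 1 ≤ p → 1 ≤ q → p ≠ ∞ → q ≠ ∞ → ∀ t, 0 ≤ t → Agree (U p t) (U q t)) ∧
  (∀ p : ℝ≥0∞, 1 ≤ p → p ≠ ∞ → Law (U p) ∧ Cont (U p) ∧
    ∀ t, 0 ≤ t → Lin (U p t) ∧ Pos (U p t) ∧ Contr (U p t) ∧ SupContr (U p t)) ∧
  ∀ t, 0 ≤ t → Symm (U 2 t)

/-- `f ∈ D(T)` and `T f = h`, for the generator `T` on `L^1` -/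
def Gen (U : Fam) (f h : L 1) : Prop :=
  Tendsto (fun t : ℝ => ‖t⁻¹ • (U 1 t f - f) - h‖) (𝓝[>] 0) (𝓝 0)

/-- `D(T) ⊆ D(V)` in `L^1` -/
def TBounded (U : Fam) (V : ℝ → ℝ) : Prop :=
  ∀ f h, Gen U f h → Integrable (fun x => V x * f x)

/-- `λ f - h` -/
noncomputable def comb (lam : ℝ) (f h : L 1) : L 1 := lam • f - h

/-- `W = V (λ - T)⁻¹` on `L^1` -/
def IsVRes (U : Fam) (V : ℝ → ℝ) (lam : ℝ) (W : L 1 → L 1) : Prop :=
  (∀ g, ∃ f h, Gen U f h ∧ comb lam f h = g) ∧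
    ∀ f h, Gen U f h → W (comb lam f h) =ᵐ[volume] fun x => V x * f x

/-- operator norm of a map on `L^1` -/
noncomputable def opn (W : L 1 → L 1) : ℝ := sInf {c | 0 ≤ c ∧ ∀ f, ‖W f‖ ≤ c * ‖f‖}

/-- bounded linear map on `L^1` -/
def Bdd (W : L 1 → L 1) : Prop := Lin W ∧ ∃ c : ℝ, ∀ f, ‖W f‖ ≤ c * ‖f‖

/-- spectral radius, by Gelfand's formula -/
noncomputable def rad (W : L 1 → L 1) : ℝ := ⨅ k : ℕ, opn W^[k + 1] ^ (1 / (k + 1 : ℝ))

/-- the closed form of the `L^2` generator, with value `∞` off its domain -/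
noncomputable def form (U : Fam) (φ : L 2) : ℝ≥0∞ :=
  ⨆ (t : ℝ) (_ : 0 < t), ENNReal.ofReal (t⁻¹ * ∫ x, (φ x - U 2 t φ x) * φ x)

/-- the admissible constants `a` in the form inequality -/
def FormConst (U : Fam) (V : ℝ → ℝ) : Set ℝ :=
  {a | 0 ≤ a ∧ ∃ b : ℝ, 0 ≤ b ∧ ∀ φ : L 2, form U φ ≠ ∞ →
    ∫⁻ x, ENNReal.ofReal (V x * φ x ^ 2) ≤
      ENNReal.ofReal a * form U φ + ENNReal.ofReal (b * ‖φ‖ ^ 2)}

open Classical in
/-- the semigroup of the example -/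
noncomputable def U0 : Fam := fun p t f =>
  if h : 1 ≤ p then @Pool.Agent.H2.Fb.U p ⟨h⟩ t f else f

lemma U0_eq (p : ℝ≥0∞) [h : Fact (1 ≤ p)] (t : ℝ) : U0 p t = Pool.Agent.H2.Fb.U p t :=
  funext fun _ => dif_pos h.out

lemma inn (f g : L 2) : ⟪f, g⟫ = ∫ x, f x * g x := by
  rw [L2.inner_def]; simp [mul_comm]

open Pool.Agent.H2.Fb in
theorem result : ∃ (U : Fam) (V : ℝ → ℝ), SubMarkov U ∧ Measurable V ∧ (∀ x, 0 ≤ V x) ∧
    TBounded U V ∧ ∃ (W : ℝ → L 1 → L 1) (δ : ℝ),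
      (∀ lam, 0 < lam → Bdd (W lam) ∧ IsVRes U V lam (W lam)) ∧
      Tendsto (fun lam => rad (W lam)) atTop (𝓝 δ) ∧
      (FormConst U V).Nonempty ∧ sInf (FormConst U V) < δ := by
  choose! W h1 h2 h3 using resolvent
  have gen : ∀ f h, Gen U0 f h ↔
      Tendsto (fun t : ℝ => t⁻¹ • (U 1 t f - f)) (𝓝[>] 0) (𝓝 h) := by
    intro f h
    rw [tendsto_iff_norm_sub_tendsto_zero]
    simp only [Gen, U0_eq]
  have mem : (5/6 : ℝ) ∈ FormConst U0 fun x => N x := by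
    refine ⟨by norm_num, 0, le_rfl, fun φ hφ => le_add_right (formb φ _ (fun t ht => ?_) hφ)⟩
    refine le_trans (le_of_eq ?_) (le_iSup₂ (f := fun (t : ℝ) (_ : 0 < t) =>
        ENNReal.ofReal (t⁻¹ * ∫ x, (φ x - U0 2 t φ x) * φ x)) t ht)
    rw [inn, U0_eq]
    congr 2
    refine integral_congr_ae ?_
    filter_upwards [Lp.coeFn_sub φ (U 2 t φ)] with x hx
    rw [hx]; rfl
  refine ⟨U0, fun x => N x, ⟨fun p q hp1 hq1 hp hq t ht => ?_, fun p hp1 hp => ?_,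
    fun t ht f g => ?_⟩, measurable_from_top.comp N_meas, fun x => Nat.cast_nonneg _,
    fun f h hf => memLp_one_iff_integrable.1 (V_mem ENNReal.one_ne_top ((gen f h).1 hf)),
    fun lam => W lam, 1, fun lam hl => ⟨⟨(W lam).toLinearMap.isLinear, _, (W lam).le_opNorm⟩,
      fun g => ?_, fun f h hf => h2 lam hl f h ((gen f h).1 hf)⟩, ?_, ⟨_, mem⟩,
    (csInf_le ⟨0, fun a ha => ha.1⟩ mem).trans_lt (by norm_num)⟩
  · have := Fact.mk hp1
    have := Fact.mk hq1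
    rw [U0_eq, U0_eq]
    exact U_cons hp hq ht
  · have := Fact.mk hp1
    refine ⟨⟨fun f => by rw [U0_eq, U_zero hp]; rfl, fun s t hs ht f => by
      simp only [U0_eq]; rw [U_add hp hs ht]; rfl⟩, fun f s hs => ?_, fun t ht => ?_⟩
    · simp only [U0_eq]
      exact tendsto_iff_norm_sub_tendsto_zero.1 (U_cont hp f s hs)
    · rw [U0_eq]
      exact ⟨(U p t).toLinearMap.isLinear, fun f hf => (Lp.coeFn_nonneg _).2
        (U_pos hp ht f ((Lp.coeFn_nonneg f).1 hf)), fun f => ((U p t).le_opNorm f).trans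
        (mul_le_of_le_one_left (norm_nonneg _) (U_spec hp ht).2), U_top hp ht⟩
  · rw [U0_eq, ← inn, ← inn]
    exact ContinuousLinearMap.isSelfAdjoint_iff_isSymmetric.1 (U_sa ht) f g
  · obtain ⟨f, h, a, b⟩ := h1 lam hl g
    exact ⟨f, h, (gen f h).2 a, b⟩
  · refine tendsto_const_nhds.congr' ?_
    filter_upwards [eventually_gt_atTop 0] with lam hl
    have : ∀ k : ℕ, opn (W lam)^[k] = 1 := fun k => by
      have e : (W lam)^[k] = ⇑(W lam ^ k) := by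
        induction k with
        | zero => rfl
        | succ k ih => rw [Function.iterate_succ, ih, pow_succ]; rfl
      rw [← h3 lam hl k, e]; rfl
    simp only [rad, this]
    simp

end Pool.Agent.Results.MP_62a15f_an.Gap
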